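import Mathlib
import Pool.Agent.Lib_helper98.RenyiCfc
import Pool.Agent.Lib_helper98.RenyiConvex

/-!
# Relative entropy of positive definite matrices, Klein's inequality, the integral formula
-/

set_option autoImplicit false
set_option linter.unusedSectionVars false
set_option linter.unusedSimpArgs false

open scoped ComplexOrder

namespace Pool.Agent.Lib_helper59.Lieb

open Matrix MeasureTheory Set Filter
open Pool.Agent.Lib_helper98.Renyi

section

variable {n : Type*} [Fintype n] [DecidableEq n]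

/-- Real part of the trace. -/
noncomputable def rtr (M : Matrix n n ℂ) : ℝ := (trace M).re

theorem rtr_add (M N : Matrix n n ℂ) : rtr (M + N) = rtr M + rtr N := by
  simp [rtr, trace_add]

theorem rtr_sub (M N : Matrix n n ℂ) : rtr (M - N) = rtr M - rtr N := by
  simp [rtr, trace_sub]

theorem rtr_smul (c : ℝ) (M : Matrix n n ℂ) : rtr (c • M) = c * rtr M := by
  simp [rtr, trace_smul]

theorem rtr_mul_comm (M N : Matrix n n ℂ) : rtr (M * N) = rtr (N * M) := by
  rw [rtr, rtr, trace_mul_comm]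

/-- diagonal matrix with real entries -/
noncomputable abbrev dg (c : n → ℝ) : Matrix n n ℂ := diagonal (fun i => (c i : ℂ))

theorem exists_spectral_pos {A : Matrix n n ℂ} (hA : A.PosDef) :
    ∃ (U : Matrix n n ℂ) (c : n → ℝ), Uᴴ * U = 1 ∧ U * Uᴴ = 1 ∧ (∀ i, 0 < c i) ∧
      A = U * dg c * Uᴴ := by
  refine ⟨hA.1.eigenvectorUnitary, hA.1.eigenvalues, ?_, ?_, hA.eigenvalues_pos, ?_⟩
  · have := (Matrix.mem_unitaryGroup_iff' (A := (hA.1.eigenvectorUnitary : Matrix n n ℂ))).1
      hA.1.eigenvectorUnitary.2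
    simpa [star_eq_conjTranspose] using this
  · have := (Matrix.mem_unitaryGroup_iff (A := (hA.1.eigenvectorUnitary : Matrix n n ℂ))).1
      hA.1.eigenvectorUnitary.2
    simpa [star_eq_conjTranspose] using this
  · have := hA.1.spectral_theorem
    rw [Unitary.conjStarAlgAut_apply] at this
    exact this

theorem posDef_conj_dg {U : Matrix n n ℂ} (hU' : U * Uᴴ = 1) {c : n → ℝ}
    (hc : ∀ i, 0 < c i) : (U * dg c * Uᴴ).PosDef := by
  have h1 : (dg c).PosDef := by
    refine PosDef.diagonal fun i => ?_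
    exact_mod_cast hc i
  refine h1.mul_mul_conjTranspose_same ?_
  intro x y hxy
  have hxy' : x ᵥ* U = y ᵥ* U := hxy
  have := congrArg (fun v => v ᵥ* Uᴴ) hxy'
  simpa [Matrix.vecMul_vecMul, hU'] using this

/-- trace of the product of two unitarily diagonalised matrices -/
theorem rtr_mul_dg (U V : Matrix n n ℂ) (f g : n → ℝ) :
    rtr ((U * dg f * Uᴴ) * (V * dg g * Vᴴ)) =
      ∑ i, ∑ j, Complex.normSq ((Uᴴ * V) i j) * (f i * g j) := by
  have h : trace ((U * dg f * Uᴴ) * (V * dg g * Vᴴ)) =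
      trace (dg f * ((Uᴴ * V) * dg g * (Uᴴ * V)ᴴ)) := by
    rw [conjTranspose_mul, conjTranspose_conjTranspose, Matrix.mul_assoc, Matrix.mul_assoc,
      trace_mul_comm]
    congr 1
    simp only [Matrix.mul_assoc]
  rw [rtr, h, trace, Complex.re_sum]
  refine Finset.sum_congr rfl fun i _ => ?_
  rw [diag_apply, diagonal_mul, conj_diag_entry, ← Complex.ofReal_mul, Complex.ofReal_re,
    Finset.mul_sum]
  refine Finset.sum_congr rfl fun j _ => ?_
  ring

/-- `D(X‖Y) = Tr X log X - Tr X log Y`. -/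
noncomputable def relEnt (X Y : Matrix n n ℂ) : ℝ :=
  rtr (X * cfc Real.log X) - rtr (X * cfc Real.log Y)

/-- the scalar relative entropy, with the linear correction -/
noncomputable def kl (x y : ℝ) : ℝ := x * Real.log x - x * Real.log y - x + y

theorem kl_nonneg {x y : ℝ} (hx : 0 < x) (hy : 0 < y) : 0 ≤ kl x y := by
  have h1 : Real.log (y / x) ≤ y / x - 1 := Real.log_le_sub_one_of_pos (div_pos hy hx)
  rw [Real.log_div hy.ne' hx.ne'] at h1
  have h2 := mul_le_mul_of_nonneg_left h1 hx.le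
  have h3 : x * (y / x - 1) = y - x := by field_simp
  rw [h3] at h2
  unfold kl
  linarith

theorem dg_one : dg (fun _ : n => (1 : ℝ)) = 1 := by simp [dg]

/-- weights -/
noncomputable def wt (U V : Matrix n n ℂ) (i j : n) : ℝ := Complex.normSq ((Uᴴ * V) i j)

theorem wt_nonneg (U V : Matrix n n ℂ) (i j : n) : 0 ≤ wt U V i j := Complex.normSq_nonneg _

theorem rtr_eq_wt_left {U V : Matrix n n ℂ} (hV' : V * Vᴴ = 1) (f : n → ℝ) :
    rtr (U * dg f * Uᴴ) = ∑ i, ∑ j, wt U V i j * f i := by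
  have h := rtr_mul_dg U V f (fun _ => 1)
  rw [dg_one, Matrix.mul_one, hV', Matrix.mul_one] at h
  rw [h]
  simp [wt]

theorem rtr_eq_wt_right {U V : Matrix n n ℂ} (hU' : U * Uᴴ = 1) (g : n → ℝ) :
    rtr (V * dg g * Vᴴ) = ∑ i, ∑ j, wt U V i j * g j := by
  have h := rtr_mul_dg U V (fun _ => 1) g
  rw [dg_one, Matrix.mul_one, hU', Matrix.one_mul] at h
  rw [h]
  simp [wt]

theorem relEnt_eq {U V : Matrix n n ℂ} (hU : Uᴴ * U = 1) (hU' : U * Uᴴ = 1)
    (hV : Vᴴ * V = 1) (hV' : V * Vᴴ = 1) (x y : n → ℝ) :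
    relEnt (U * dg x * Uᴴ) (V * dg y * Vᴴ) - rtr (U * dg x * Uᴴ) + rtr (V * dg y * Vᴴ) =
      ∑ i, ∑ j, wt U V i j * kl (x i) (y j) := by
  have h1 : rtr ((U * dg x * Uᴴ) * cfc Real.log (U * dg x * Uᴴ)) =
      ∑ i, ∑ j, wt U V i j * (x i * Real.log (x i)) := by
    rw [cfc_conj_diagonal _ U hU]
    have : (U * dg x * Uᴴ) * (U * dg (fun i => Real.log (x i)) * Uᴴ) =
        U * dg (fun i => x i * Real.log (x i)) * Uᴴ := by
      have e : (U * dg x * Uᴴ) * (U * dg (fun i => Real.log (x i)) * Uᴴ) =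
          U * (dg x * (Uᴴ * U) * dg (fun i => Real.log (x i))) * Uᴴ := by
        simp only [Matrix.mul_assoc]
      rw [e, hU, Matrix.mul_one, diagonal_mul_diagonal]
      simp [dg]
    rw [this, rtr_eq_wt_left hV']
  have h2 : rtr ((U * dg x * Uᴴ) * cfc Real.log (V * dg y * Vᴴ)) =
      ∑ i, ∑ j, wt U V i j * (x i * Real.log (y j)) := by
    rw [cfc_conj_diagonal _ V hV]
    exact rtr_mul_dg U V x (fun j => Real.log (y j))
  rw [relEnt, h1, h2, rtr_eq_wt_left hV' x, rtr_eq_wt_right (U := U) hU' y,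
    ← Finset.sum_sub_distrib, ← Finset.sum_sub_distrib, ← Finset.sum_add_distrib]
  refine Finset.sum_congr rfl fun i _ => ?_
  rw [← Finset.sum_sub_distrib, ← Finset.sum_sub_distrib, ← Finset.sum_add_distrib]
  refine Finset.sum_congr rfl fun j _ => ?_
  unfold kl
  ring

/-- **Klein's inequality.** -/
theorem klein {X Y : Matrix n n ℂ} (hX : X.PosDef) (hY : Y.PosDef) :
    0 ≤ relEnt X Y - rtr X + rtr Y := by
  obtain ⟨U, x, hU, hU', hx, rfl⟩ := exists_spectral_pos hX
  obtain ⟨V, y, hV, hV', hy, rfl⟩ := exists_spectral_pos hY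
  rw [relEnt_eq hU hU' hV hV']
  exact Finset.sum_nonneg fun i _ => Finset.sum_nonneg fun j _ =>
    mul_nonneg (wt_nonneg _ _ _ _) (kl_nonneg (hx i) (hy j))

/-! ### the scalar integral -/

/-- the scalar integrand -/
noncomputable def sc (x y t : ℝ) : ℝ := (x - y) ^ 2 / ((y + x * t) * (1 + t) ^ 2)

theorem sc_hasDerivAt {x y : ℝ} (hx : 0 < x) (hy : 0 < y) {t : ℝ} (ht : 0 ≤ t) :
    HasDerivAt (fun t => x * (Real.log (y + x * t) - Real.log (1 + t)) + (x - y) / (1 + t))
      (sc x y t) t := by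
  have h1 : 0 < y + x * t := by positivity
  have h2 : 0 < 1 + t := by positivity
  have d1 : HasDerivAt (fun t => y + x * t) x t := by
    simpa using ((hasDerivAt_id t).const_mul x).const_add y
  have d2 : HasDerivAt (fun t : ℝ => 1 + t) 1 t := by
    simpa using (hasDerivAt_id t).const_add 1
  have d3 := ((d1.log h1.ne').sub (d2.log h2.ne')).const_mul x
  have d4 := (d2.inv h2.ne').const_mul (x - y)
  have d5 := d3.add d4
  have e : (fun t => x * (Real.log (y + x * t) - Real.log (1 + t)) + (x - y) / (1 + t)) =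
      (fun t => x * (Real.log (y + x * t) - Real.log (1 + t)) + (x - y) * (1 + t)⁻¹) := by
    funext t; rw [div_eq_mul_inv]
  rw [e]
  refine HasDerivAt.congr_deriv d5 ?_
  unfold sc
  field_simp
  ring

theorem sc_tendsto {x y : ℝ} (hx : 0 < x) :
    Tendsto (fun t => x * (Real.log (y + x * t) - Real.log (1 + t)) + (x - y) / (1 + t)) atTop
      (nhds (x * Real.log x)) := by
  have h0 : Tendsto (fun t : ℝ => (1 + t)⁻¹) atTop (nhds 0) :=
    tendsto_inv_atTop_zero.comp (tendsto_atTop_add_const_left _ _ tendsto_id)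
  have h1 : Tendsto (fun t : ℝ => x + (y - x) * (1 + t)⁻¹) atTop (nhds x) := by
    simpa using (h0.const_mul (y - x)).const_add x
  have h2 : Tendsto (fun t : ℝ => Real.log (x + (y - x) * (1 + t)⁻¹)) atTop
      (nhds (Real.log x)) := h1.log hx.ne'
  have h3 : Tendsto (fun t : ℝ => x * Real.log (x + (y - x) * (1 + t)⁻¹) +
      (x - y) * (1 + t)⁻¹) atTop (nhds (x * Real.log x)) := by
    simpa using (h2.const_mul x).add (h0.const_mul (x - y))
  refine h3.congr' ?_
  filter_upwards [eventually_gt_atTop (max 0 (-y / x))] with t ht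
  have ht0 : 0 < t := (le_max_left _ _).trans_lt ht
  have ht1 : -y / x < t := (le_max_right _ _).trans_lt ht
  have h4 : 0 < y + x * t := by
    rw [div_lt_iff₀ hx] at ht1
    nlinarith
  have h5 : 0 < 1 + t := by positivity
  rw [← Real.log_div h4.ne' h5.ne', div_eq_mul_inv (x - y)]
  congr 3
  field_simp
  ring

theorem sc_nonneg {x y : ℝ} (hx : 0 < x) (hy : 0 < y) {t : ℝ} (ht : 0 ≤ t) : 0 ≤ sc x y t := by
  unfold sc
  positivity

theorem sc_integrableOn {x y : ℝ} (hx : 0 < x) (hy : 0 < y) :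
    IntegrableOn (sc x y) (Ioi 0) := by
  refine integrableOn_Ioi_deriv_of_nonneg' (fun t ht => sc_hasDerivAt hx hy ht)
    (fun t ht => sc_nonneg hx hy (le_of_lt ht)) (sc_tendsto hx)

theorem sc_integral {x y : ℝ} (hx : 0 < x) (hy : 0 < y) :
    ∫ t in Ioi 0, sc x y t = kl x y := by
  rw [integral_Ioi_of_hasDerivAt_of_nonneg' (fun t ht => sc_hasDerivAt hx hy ht)
    (fun t ht => sc_nonneg hx hy (le_of_lt ht)) (sc_tendsto hx)]
  unfold kl
  simp
  ring

end

end Pool.Agent.Lib_helper59.Lieb
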