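import Mathlib
import Pool.Agent.Lib_helper59.Lieb.Basic

/-!
# Joint subadditivity of the relative entropy, Lieb's concavity theorem
-/

set_option autoImplicit false
set_option linter.unusedSectionVars false
set_option linter.unusedSimpArgs false

open scoped ComplexOrder

namespace Pool.Agent.Lib_helper59.Lieb

open Matrix MeasureTheory Set Filter
open Pool.Agent.Lib_helper98.Renyi

section

variable {n : Type*} [Fintype n] [DecidableEq n]

/-- the variational expression -/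
noncomputable def G (t : ℝ) (Z X Y : Matrix n n ℂ) : ℝ :=
  2 * rtr (Zᴴ * (X - Y)) - rtr (Zᴴ * Y * Z) - t * rtr (Zᴴ * Z * X)

theorem G_add (t : ℝ) (Z X₁ Y₁ X₂ Y₂ : Matrix n n ℂ) :
    G t Z (X₁ + X₂) (Y₁ + Y₂) = G t Z X₁ Y₁ + G t Z X₂ Y₂ := by
  have e1 : Zᴴ * (X₁ + X₂ - (Y₁ + Y₂)) = Zᴴ * (X₁ - Y₁) + Zᴴ * (X₂ - Y₂) := by
    rw [← Matrix.mul_add]; congr 1; abel
  have e2 : Zᴴ * (Y₁ + Y₂) * Z = Zᴴ * Y₁ * Z + Zᴴ * Y₂ * Z := by
    rw [Matrix.mul_add, Matrix.add_mul]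
  have e3 : Zᴴ * Z * (X₁ + X₂) = Zᴴ * Z * X₁ + Zᴴ * Z * X₂ := by
    rw [Matrix.mul_add]
  unfold G
  rw [e1, e2, e3, rtr_add, rtr_add, rtr_add]
  ring

/-- `Ft = ⟨X-Y, (L_Y + t R_X)⁻¹ (X-Y)⟩` in spectral form -/
noncomputable def Ft (U V : Matrix n n ℂ) (x y : n → ℝ) (t : ℝ) : ℝ :=
  ∑ i, ∑ j, wt U V i j * ((x i - y j) ^ 2 / (y j + x i * t))

/-- the expression `G` in the eigenbases -/
theorem G_eq {U V : Matrix n n ℂ} (hU : Uᴴ * U = 1) (hV : Vᴴ * V = 1)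
    (x y : n → ℝ) (t : ℝ) (z : Matrix n n ℂ) :
    G t (V * z * Uᴴ) (U * dg x * Uᴴ) (V * dg y * Vᴴ) =
      ∑ i, ∑ j, (2 * (star (z j i) * star ((Uᴴ * V) i j)).re * (x i - y j) -
        Complex.normSq (z j i) * (y j + x i * t)) := by
  have hW : ∀ i j, star ((Uᴴ * V) i j) = (Vᴴ * U) j i := by
    intro i j
    rw [← conjTranspose_apply, conjTranspose_mul, conjTranspose_conjTranspose]
  have e1 : rtr ((V * z * Uᴴ)ᴴ * (U * dg x * Uᴴ)) =
      ∑ i, ∑ j, (star (z j i) * star ((Uᴴ * V) i j)).re * x i := by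
    have : trace ((V * z * Uᴴ)ᴴ * (U * dg x * Uᴴ)) = trace (zᴴ * ((Vᴴ * U) * dg x)) := by
      rw [conjTranspose_mul, conjTranspose_mul, conjTranspose_conjTranspose]
      have : U * (zᴴ * Vᴴ) * (U * dg x * Uᴴ) = U * ((zᴴ * Vᴴ) * (U * dg x * Uᴴ)) := by
        simp only [Matrix.mul_assoc]
      rw [this, trace_mul_comm]
      have : zᴴ * Vᴴ * (U * dg x * Uᴴ) * U = zᴴ * ((Vᴴ * U) * dg x * (Uᴴ * U)) := by
        simp only [Matrix.mul_assoc]
      rw [this, hU, Matrix.mul_one]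
    rw [rtr, this, trace, Complex.re_sum]
    refine Finset.sum_congr rfl fun i _ => ?_
    rw [diag_apply, Matrix.mul_apply, Complex.re_sum]
    refine Finset.sum_congr rfl fun j _ => ?_
    rw [mul_diagonal, conjTranspose_apply, hW, ← mul_assoc, Complex.re_mul_ofReal]
  have e2 : rtr ((V * z * Uᴴ)ᴴ * (V * dg y * Vᴴ)) =
      ∑ i, ∑ j, (star (z j i) * star ((Uᴴ * V) i j)).re * y j := by
    have : trace ((V * z * Uᴴ)ᴴ * (V * dg y * Vᴴ)) = trace (zᴴ * (dg y * (Vᴴ * U))) := by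
      rw [conjTranspose_mul, conjTranspose_mul, conjTranspose_conjTranspose]
      have : U * (zᴴ * Vᴴ) * (V * dg y * Vᴴ) = U * ((zᴴ * Vᴴ) * (V * dg y * Vᴴ)) := by
        simp only [Matrix.mul_assoc]
      rw [this, trace_mul_comm]
      have : zᴴ * Vᴴ * (V * dg y * Vᴴ) * U = zᴴ * ((Vᴴ * V) * dg y * (Vᴴ * U)) := by
        simp only [Matrix.mul_assoc]
      rw [this, hV, Matrix.one_mul]
    rw [rtr, this, trace, Complex.re_sum]
    refine Finset.sum_congr rfl fun i _ => ?_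
    rw [diag_apply, Matrix.mul_apply, Complex.re_sum]
    refine Finset.sum_congr rfl fun j _ => ?_
    rw [diagonal_mul, conjTranspose_apply, hW]
    have : star (z j i) * ((y j : ℂ) * (Vᴴ * U) j i) = star (z j i) * (Vᴴ * U) j i * (y j : ℂ) := by
      ring
    rw [this, Complex.re_mul_ofReal]
  have e3 : rtr ((V * z * Uᴴ)ᴴ * (V * dg y * Vᴴ) * (V * z * Uᴴ)) =
      ∑ i, ∑ j, Complex.normSq (z j i) * y j := by
    have : trace ((V * z * Uᴴ)ᴴ * (V * dg y * Vᴴ) * (V * z * Uᴴ)) =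
        trace (zᴴ * dg y * zᴴᴴ) := by
      rw [conjTranspose_mul, conjTranspose_mul, conjTranspose_conjTranspose,
        conjTranspose_conjTranspose]
      have : U * (zᴴ * Vᴴ) * (V * dg y * Vᴴ) * (V * z * Uᴴ) =
          U * (zᴴ * (Vᴴ * V) * dg y * (Vᴴ * V) * z * Uᴴ) := by
        simp only [Matrix.mul_assoc]
      rw [this, hV, Matrix.mul_one, Matrix.mul_one, trace_mul_comm, Matrix.mul_assoc _ Uᴴ, hU,
        Matrix.mul_one]
    rw [rtr, this, trace, Complex.re_sum]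
    refine Finset.sum_congr rfl fun i _ => ?_
    rw [diag_apply, conj_diag_entry, Complex.ofReal_re]
    refine Finset.sum_congr rfl fun j _ => ?_
    rw [conjTranspose_apply, Complex.star_def, Complex.normSq_conj]
  have e4 : rtr ((V * z * Uᴴ)ᴴ * (V * z * Uᴴ) * (U * dg x * Uᴴ)) =
      ∑ i, ∑ j, Complex.normSq (z j i) * x i := by
    have : trace ((V * z * Uᴴ)ᴴ * (V * z * Uᴴ) * (U * dg x * Uᴴ)) =
        trace (z * dg x * zᴴ) := by
      rw [conjTranspose_mul, conjTranspose_mul, conjTranspose_conjTranspose]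
      have : U * (zᴴ * Vᴴ) * (V * z * Uᴴ) * (U * dg x * Uᴴ) =
          U * (zᴴ * ((Vᴴ * V) * z * (Uᴴ * U) * dg x * Uᴴ)) := by
        simp only [Matrix.mul_assoc]
      rw [this, hU, hV, Matrix.mul_one, Matrix.one_mul, trace_mul_comm]
      have : zᴴ * (z * dg x * Uᴴ) * U = zᴴ * (z * dg x * (Uᴴ * U)) := by
        simp only [Matrix.mul_assoc]
      rw [this, hU, Matrix.mul_one, trace_mul_comm]
    rw [rtr, this, trace, Complex.re_sum, Finset.sum_comm]
    refine Finset.sum_congr rfl fun j _ => ?_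
    rw [diag_apply, conj_diag_entry, Complex.ofReal_re]
  unfold G
  rw [Matrix.mul_sub, rtr_sub, e1, e2, e3, e4, mul_sub, Finset.mul_sum, Finset.mul_sum,
    Finset.mul_sum, ← Finset.sum_sub_distrib, ← Finset.sum_sub_distrib, ← Finset.sum_sub_distrib]
  refine Finset.sum_congr rfl fun i _ => ?_
  rw [Finset.mul_sum, Finset.mul_sum, Finset.mul_sum, ← Finset.sum_sub_distrib,
    ← Finset.sum_sub_distrib, ← Finset.sum_sub_distrib]
  refine Finset.sum_congr rfl fun j _ => ?_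
  ring

theorem scalar_le (z w : ℂ) {d c : ℝ} (hc : 0 < c) :
    2 * (star z * star w).re * d - Complex.normSq z * c ≤ Complex.normSq w * (d ^ 2 / c) := by
  have h : 0 ≤ Complex.normSq (star z * (c : ℂ) - w * (d : ℂ)) / c :=
    div_nonneg (Complex.normSq_nonneg _) hc.le
  have h2 : Complex.normSq (star z * (c : ℂ) - w * (d : ℂ)) =
      Complex.normSq z * c ^ 2 - 2 * (star z * star w).re * d * c + Complex.normSq w * d ^ 2 := by
    simp only [Complex.normSq_apply, Complex.star_def, Complex.sub_re, Complex.sub_im,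
      Complex.mul_re, Complex.mul_im, Complex.conj_re, Complex.conj_im, Complex.ofReal_re,
      Complex.ofReal_im]
    ring
  rw [h2] at h
  have h3 : (Complex.normSq z * c ^ 2 - 2 * (star z * star w).re * d * c +
      Complex.normSq w * d ^ 2) / c = Complex.normSq z * c - 2 * (star z * star w).re * d +
      Complex.normSq w * (d ^ 2 / c) := by
    field_simp
  rw [h3] at h
  linarith

theorem scalar_eq (w : ℂ) {d c : ℝ} (hc : 0 < c) :
    2 * (star (star w * ((d / c : ℝ) : ℂ)) * star w).re * d -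
      Complex.normSq (star w * ((d / c : ℝ) : ℂ)) * c = Complex.normSq w * (d ^ 2 / c) := by
  have h1 : (star (star w * ((d / c : ℝ) : ℂ)) * star w).re = Complex.normSq w * (d / c) := by
    simp only [Complex.normSq_apply, Complex.star_def, Complex.mul_re, Complex.mul_im,
      Complex.conj_re, Complex.conj_im, Complex.ofReal_re, Complex.ofReal_im, map_mul,
      Complex.conj_conj, Complex.conj_ofReal]
    ring
  have h2 : Complex.normSq (star w * ((d / c : ℝ) : ℂ)) = Complex.normSq w * (d / c) ^ 2 := by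
    rw [Complex.normSq_mul, Complex.normSq_ofReal, Complex.star_def, Complex.normSq_conj]
    ring
  rw [h1, h2]
  field_simp
  ring

theorem G_le_Ft {U V : Matrix n n ℂ} (hU : Uᴴ * U = 1) (hU' : U * Uᴴ = 1) (hV : Vᴴ * V = 1)
    (hV' : V * Vᴴ = 1) {x y : n → ℝ} (hx : ∀ i, 0 < x i) (hy : ∀ i, 0 < y i) {t : ℝ}
    (ht : 0 ≤ t) (Z : Matrix n n ℂ) :
    G t Z (U * dg x * Uᴴ) (V * dg y * Vᴴ) ≤ Ft U V x y t := by
  have hZ : Z = V * (Vᴴ * Z * U) * Uᴴ := by
    have : V * (Vᴴ * Z * U) * Uᴴ = (V * Vᴴ) * Z * (U * Uᴴ) := by simp only [Matrix.mul_assoc]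
    rw [this, hV', hU', Matrix.one_mul, Matrix.mul_one]
  rw [hZ, G_eq hU hV]
  refine Finset.sum_le_sum fun i _ => Finset.sum_le_sum fun j _ => ?_
  have hc : 0 < y j + x i * t := by
    have := hx i
    have := hy j
    positivity
  exact scalar_le _ _ hc

theorem exists_G_eq_Ft {U V : Matrix n n ℂ} (hU : Uᴴ * U = 1) (hV : Vᴴ * V = 1)
    {x y : n → ℝ} (hx : ∀ i, 0 < x i) (hy : ∀ i, 0 < y i) {t : ℝ} (ht : 0 ≤ t) :
    ∃ Z : Matrix n n ℂ, G t Z (U * dg x * Uᴴ) (V * dg y * Vᴴ) = Ft U V x y t := by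
  refine ⟨V * (Matrix.of fun j i => star ((Uᴴ * V) i j) *
    (((x i - y j) / (y j + x i * t) : ℝ) : ℂ)) * Uᴴ, ?_⟩
  rw [G_eq hU hV]
  refine Finset.sum_congr rfl fun i _ => Finset.sum_congr rfl fun j _ => ?_
  have hc : 0 < y j + x i * t := by
    have := hx i
    have := hy j
    positivity
  exact scalar_eq _ hc

theorem Ft_div {U V : Matrix n n ℂ} {x y : n → ℝ} (t : ℝ) :
    Ft U V x y t / (1 + t) ^ 2 = ∑ i, ∑ j, wt U V i j * sc (x i) (y j) t := by
  unfold Ft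
  rw [Finset.sum_div]
  refine Finset.sum_congr rfl fun i _ => ?_
  rw [Finset.sum_div]
  refine Finset.sum_congr rfl fun j _ => ?_
  unfold sc
  rw [mul_div_assoc, div_div]

theorem Ft_integrableOn (U V : Matrix n n ℂ) {x y : n → ℝ} (hx : ∀ i, 0 < x i)
    (hy : ∀ i, 0 < y i) : IntegrableOn (fun t => Ft U V x y t / (1 + t) ^ 2) (Ioi 0) := by
  have : (fun t => Ft U V x y t / (1 + t) ^ 2) =
      fun t => ∑ i, ∑ j, wt U V i j * sc (x i) (y j) t := funext fun t => Ft_div t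
  rw [this]
  exact integrable_finsetSum _ fun i _ => integrable_finsetSum _ fun j _ =>
    (sc_integrableOn (hx i) (hy j)).const_mul _

theorem Ft_integral {U V : Matrix n n ℂ} (hU : Uᴴ * U = 1) (hU' : U * Uᴴ = 1)
    (hV : Vᴴ * V = 1) (hV' : V * Vᴴ = 1) {x y : n → ℝ} (hx : ∀ i, 0 < x i)
    (hy : ∀ i, 0 < y i) :
    ∫ t in Ioi 0, Ft U V x y t / (1 + t) ^ 2 =
      relEnt (U * dg x * Uᴴ) (V * dg y * Vᴴ) - rtr (U * dg x * Uᴴ) + rtr (V * dg y * Vᴴ) := by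
  rw [relEnt_eq hU hU' hV hV']
  have : (fun t => Ft U V x y t / (1 + t) ^ 2) =
      fun t => ∑ i, ∑ j, wt U V i j * sc (x i) (y j) t := funext fun t => Ft_div t
  rw [this, integral_finsetSum]
  · refine Finset.sum_congr rfl fun i _ => ?_
    rw [integral_finsetSum]
    · refine Finset.sum_congr rfl fun j _ => ?_
      rw [integral_const_mul, sc_integral (hx i) (hy j)]
    · exact fun j _ => (sc_integrableOn (hx i) (hy j)).const_mul _
  · exact fun i _ => integrable_finsetSum _ fun j _ =>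
      (sc_integrableOn (hx i) (hy j)).const_mul _

/-- **Joint subadditivity (= joint convexity) of the relative entropy.** -/
theorem relEnt_add_le {X₁ Y₁ X₂ Y₂ : Matrix n n ℂ} (hX₁ : X₁.PosDef) (hY₁ : Y₁.PosDef)
    (hX₂ : X₂.PosDef) (hY₂ : Y₂.PosDef) :
    relEnt (X₁ + X₂) (Y₁ + Y₂) ≤ relEnt X₁ Y₁ + relEnt X₂ Y₂ := by
  obtain ⟨U, x, hU, hU', hx, hX⟩ := exists_spectral_pos (hX₁.add hX₂)
  obtain ⟨V, y, hV, hV', hy, hY⟩ := exists_spectral_pos (hY₁.add hY₂)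
  obtain ⟨U₁, x₁, hU₁, hU₁', hx₁, hX₁e⟩ := exists_spectral_pos hX₁
  obtain ⟨V₁, y₁, hV₁, hV₁', hy₁, hY₁e⟩ := exists_spectral_pos hY₁
  obtain ⟨U₂, x₂, hU₂, hU₂', hx₂, hX₂e⟩ := exists_spectral_pos hX₂
  obtain ⟨V₂, y₂, hV₂, hV₂', hy₂, hY₂e⟩ := exists_spectral_pos hY₂
  have key : ∀ t ∈ Ioi (0 : ℝ), Ft U V x y t / (1 + t) ^ 2 ≤
      Ft U₁ V₁ x₁ y₁ t / (1 + t) ^ 2 + Ft U₂ V₂ x₂ y₂ t / (1 + t) ^ 2 := by
    intro t ht
    have ht : 0 ≤ t := le_of_lt ht
    rw [← add_div]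
    refine div_le_div_of_nonneg_right ?_ (by positivity)
    obtain ⟨Z, hZ⟩ := exists_G_eq_Ft hU hV hx hy ht
    rw [← hZ, ← hX, ← hY, G_add, hX₁e, hY₁e, hX₂e, hY₂e]
    exact add_le_add (G_le_Ft hU₁ hU₁' hV₁ hV₁' hx₁ hy₁ ht Z)
      (G_le_Ft hU₂ hU₂' hV₂ hV₂' hx₂ hy₂ ht Z)
  have h := setIntegral_mono_on (Ft_integrableOn U V hx hy)
    ((Ft_integrableOn U₁ V₁ hx₁ hy₁).add (Ft_integrableOn U₂ V₂ hx₂ hy₂)) measurableSet_Ioi key
  have h' : ∫ t in Ioi 0, (Ft U₁ V₁ x₁ y₁ t / (1 + t) ^ 2 + Ft U₂ V₂ x₂ y₂ t / (1 + t) ^ 2) =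
      (∫ t in Ioi 0, Ft U₁ V₁ x₁ y₁ t / (1 + t) ^ 2) +
        ∫ t in Ioi 0, Ft U₂ V₂ x₂ y₂ t / (1 + t) ^ 2 :=
    integral_add (Ft_integrableOn U₁ V₁ hx₁ hy₁) (Ft_integrableOn U₂ V₂ hx₂ hy₂)
  have h'' : ∫ t in Ioi 0, Ft U V x y t / (1 + t) ^ 2 ≤
      ∫ t in Ioi 0, (Ft U₁ V₁ x₁ y₁ t / (1 + t) ^ 2 + Ft U₂ V₂ x₂ y₂ t / (1 + t) ^ 2) := h
  rw [h', Ft_integral hU hU' hV hV' hx hy, Ft_integral hU₁ hU₁' hV₁ hV₁' hx₁ hy₁,
    Ft_integral hU₂ hU₂' hV₂ hV₂' hx₂ hy₂, ← hX, ← hY, ← hX₁e, ← hY₁e, ← hX₂e, ← hY₂e,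
    rtr_add, rtr_add] at h''
  linarith

/-! ### exponentials and logarithms -/

theorem isHermitian_cfc (f : ℝ → ℝ) (A : Matrix n n ℂ) : (cfc f A).IsHermitian :=
  cfc_predicate f A

/-- `exp` of a hermitian matrix is positive definite, with logarithm the matrix. -/
theorem exp_posDef {H : Matrix n n ℂ} (hH : H.IsHermitian) :
    (cfc Real.exp H).PosDef ∧ cfc Real.log (cfc Real.exp H) = H := by
  obtain ⟨U, h, hU, hU', rfl⟩ := exists_spectral hH
  rw [cfc_conj_diagonal _ U hU]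
  refine ⟨posDef_conj_dg hU' fun i => Real.exp_pos _, ?_⟩
  rw [cfc_conj_diagonal _ U hU (fun i => Real.exp (h i))]
  simp

theorem dg_const (s : ℝ) : dg (fun _ : n => s) = s • (1 : Matrix n n ℂ) := by
  ext i j
  rw [dg, diagonal_apply, Matrix.smul_apply, one_apply]
  split_ifs with h <;> simp

theorem log_smul {Y : Matrix n n ℂ} (hY : Y.PosDef) {c : ℝ} (hc : 0 < c) :
    cfc Real.log (c • Y) = Real.log c • (1 : Matrix n n ℂ) + cfc Real.log Y := by
  obtain ⟨V, y, hV, hV', hy, rfl⟩ := exists_spectral_pos hY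
  have h1 : c • (V * dg y * Vᴴ) = V * dg (fun i => c * y i) * Vᴴ := by
    rw [← Matrix.smul_mul, ← Matrix.mul_smul]
    congr 2
    rw [dg, dg, ← diagonal_smul]
    congr 1
    funext i
    simp
  have h2 : Real.log c • (1 : Matrix n n ℂ) = V * dg (fun _ => Real.log c) * Vᴴ := by
    rw [dg_const, Matrix.mul_smul, Matrix.mul_one, Matrix.smul_mul, hV']
  rw [h1, cfc_conj_diagonal _ V hV, cfc_conj_diagonal _ V hV, h2, ← Matrix.add_mul,
    ← Matrix.mul_add, diagonal_add]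
  congr 3
  funext i
  rw [Real.log_mul hc.ne' (hy i).ne']
  push_cast
  rfl

theorem exp_smul_one_add {H : Matrix n n ℂ} (hH : H.IsHermitian) (s : ℝ) :
    cfc Real.exp (s • (1 : Matrix n n ℂ) + H) = Real.exp s • cfc Real.exp H := by
  obtain ⟨U, h, hU, hU', rfl⟩ := exists_spectral hH
  have h2 : s • (1 : Matrix n n ℂ) = U * dg (fun _ => s) * Uᴴ := by
    rw [dg_const, Matrix.mul_smul, Matrix.mul_one, Matrix.smul_mul, hU']
  have h3 : s • (1 : Matrix n n ℂ) + U * diagonal (fun i => (h i : ℂ)) * Uᴴ =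
      U * diagonal (fun i => ((s + h i : ℝ) : ℂ)) * Uᴴ := by
    rw [h2, ← Matrix.add_mul, ← Matrix.mul_add, diagonal_add]
    congr 3
    funext i
    push_cast
    rfl
  rw [h3, cfc_conj_diagonal _ U hU, cfc_conj_diagonal _ U hU, ← Matrix.smul_mul,
    ← Matrix.mul_smul, ← diagonal_smul]
  congr 3
  funext i
  simp [Real.exp_add]

/-- Lieb's functional `Y ↦ Tr exp (Q + log Y)`. -/
noncomputable def lieb (Q Y : Matrix n n ℂ) : ℝ := rtr (cfc Real.exp (Q + cfc Real.log Y))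

theorem lieb_smul {Q Y : Matrix n n ℂ} (hQ : Q.IsHermitian) (hY : Y.PosDef) {c : ℝ}
    (hc : 0 < c) : lieb Q (c • Y) = c * lieb Q Y := by
  rw [lieb, log_smul hY hc]
  have : Q + (Real.log c • (1 : Matrix n n ℂ) + cfc Real.log Y) =
      Real.log c • (1 : Matrix n n ℂ) + (Q + cfc Real.log Y) := by abel
  rw [this, exp_smul_one_add (hQ.add (isHermitian_cfc _ _)), Real.exp_log hc, rtr_smul, lieb]

theorem rtr_pos_of_posDef [Nonempty n] {X : Matrix n n ℂ} (hX : X.PosDef) : 0 < rtr X := by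
  have := hX.trace_pos
  rw [Complex.lt_def] at this
  exact this.1

theorem rtr_nonneg_of_posDef {X : Matrix n n ℂ} (hX : X.PosDef) : 0 ≤ rtr X := by
  have := hX.posSemidef.trace_nonneg
  rw [Complex.le_def] at this
  exact this.1

theorem lieb_nonneg {Q : Matrix n n ℂ} (hQ : Q.IsHermitian) (Y : Matrix n n ℂ) :
    0 ≤ lieb Q Y :=
  rtr_nonneg_of_posDef (exp_posDef (hQ.add (isHermitian_cfc _ _))).1

/-- Tropp's variational inequality. -/
theorem tropp_le {Q X Y : Matrix n n ℂ} (hQ : Q.IsHermitian) (hX : X.PosDef) :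
    rtr X + rtr (X * Q) - relEnt X Y ≤ lieb Q Y := by
  obtain ⟨hE, hlog⟩ := exp_posDef (hQ.add (isHermitian_cfc Real.log Y))
  have h := klein hX hE
  unfold relEnt at h
  rw [hlog, Matrix.mul_add, rtr_add] at h
  unfold relEnt lieb
  linarith

theorem tropp_eq {Q Y : Matrix n n ℂ} (hQ : Q.IsHermitian) :
    lieb Q Y = rtr (cfc Real.exp (Q + cfc Real.log Y)) +
      rtr (cfc Real.exp (Q + cfc Real.log Y) * Q) -
        relEnt (cfc Real.exp (Q + cfc Real.log Y)) Y := by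
  obtain ⟨hE, hlog⟩ := exp_posDef (hQ.add (isHermitian_cfc Real.log Y))
  unfold relEnt lieb
  rw [hlog, Matrix.mul_add, rtr_add]
  ring

/-- **Lieb's theorem**, superadditive form. -/
theorem lieb_add {Q Y₁ Y₂ : Matrix n n ℂ} (hQ : Q.IsHermitian) (hY₁ : Y₁.PosDef)
    (hY₂ : Y₂.PosDef) : lieb Q Y₁ + lieb Q Y₂ ≤ lieb Q (Y₁ + Y₂) := by
  have h1 := (exp_posDef (hQ.add (isHermitian_cfc Real.log Y₁))).1
  have h2 := (exp_posDef (hQ.add (isHermitian_cfc Real.log Y₂))).1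
  have h := tropp_le (Y := Y₁ + Y₂) hQ (h1.add h2)
  have h3 := relEnt_add_le h1 hY₁ h2 hY₂
  rw [tropp_eq hQ (Y := Y₁), tropp_eq hQ (Y := Y₂)]
  rw [rtr_add, Matrix.add_mul, rtr_add] at h
  linarith

/-- **Lieb's theorem**, concavity. -/
theorem lieb_concaveOn {Q : Matrix n n ℂ} (hQ : Q.IsHermitian) {Y₁ Y₂ : Matrix n n ℂ}
    (hY₁ : Y₁.PosDef) (hY₂ : Y₂.PosDef) {a b : ℝ} (ha : 0 ≤ a) (hb : 0 ≤ b) (hab : a + b = 1) :
    a * lieb Q Y₁ + b * lieb Q Y₂ ≤ lieb Q (a • Y₁ + b • Y₂) := by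
  rcases ha.eq_or_lt with rfl | ha
  · have : b = 1 := by linarith
    subst this
    simp
  rcases hb.eq_or_lt with rfl | hb
  · have : a = 1 := by linarith
    subst this
    simp
  rw [← lieb_smul hQ hY₁ ha, ← lieb_smul hQ hY₂ hb]
  exact lieb_add hQ (hY₁.smul ha) (hY₂.smul hb)

theorem lieb_sum {ι : Type*} {s : Finset ι} (hs : s.Nonempty) {Q : Matrix n n ℂ}
    (hQ : Q.IsHermitian) {Y : ι → Matrix n n ℂ} (hY : ∀ i ∈ s, (Y i).PosDef) :
    (∑ i ∈ s, Y i).PosDef ∧ ∑ i ∈ s, lieb Q (Y i) ≤ lieb Q (∑ i ∈ s, Y i) := by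
  classical
  induction hs using Finset.Nonempty.cons_induction with
  | singleton a => simpa using hY a (by simp)
  | cons a s has hs ih =>
    rw [Finset.sum_cons, Finset.sum_cons]
    have h1 := hY a (by simp)
    obtain ⟨h2, h3⟩ := ih fun i hi => hY i (by simp [hi])
    refine ⟨h1.add h2, ?_⟩
    have := lieb_add hQ h1 h2
    linarith

end

end Pool.Agent.Lib_helper59.Lieb
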