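import Mathlib
import Pool.Agent.Lib_helper59.Lieb.Lieb

/-!
# Supporting functional of Lieb's concave function, integral form for commuting families
-/

set_option autoImplicit false
set_option linter.unusedSectionVars false
set_option linter.unusedSimpArgs false

open scoped ComplexOrder

namespace Pool.Agent.Lib_helper59.Lieb

open Matrix MeasureTheory Set Filter
open Pool.Agent.Lib_helper98.Renyi

section

variable {n : Type*} [Fintype n] [DecidableEq n]

/-- Lieb's function along diagonal matrices in the basis `V`. -/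
noncomputable def liebD (Q V : Matrix n n ℂ) (y : n → ℝ) : ℝ := lieb Q (V * dg y * Vᴴ)

theorem dg_add (x y : n → ℝ) : dg (x + y) = dg x + dg y := by
  rw [dg, dg, dg, diagonal_add]
  congr 1
  funext i
  simp

theorem dg_smul (c : ℝ) (y : n → ℝ) : dg (c • y) = c • dg y := by
  rw [dg, dg, ← diagonal_smul]
  congr 1
  funext i
  simp

theorem liebD_add {Q V : Matrix n n ℂ} (hQ : Q.IsHermitian) (hV' : V * Vᴴ = 1) {x y : n → ℝ}
    (hx : ∀ i, 0 < x i) (hy : ∀ i, 0 < y i) :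
    liebD Q V x + liebD Q V y ≤ liebD Q V (x + y) := by
  unfold liebD
  rw [dg_add, Matrix.mul_add, Matrix.add_mul]
  exact lieb_add hQ (posDef_conj_dg hV' hx) (posDef_conj_dg hV' hy)

theorem liebD_smul {Q V : Matrix n n ℂ} (hQ : Q.IsHermitian) (hV' : V * Vᴴ = 1) {y : n → ℝ}
    (hy : ∀ i, 0 < y i) {c : ℝ} (hc : 0 < c) : liebD Q V (c • y) = c * liebD Q V y := by
  unfold liebD
  rw [dg_smul, Matrix.mul_smul, Matrix.smul_mul, lieb_smul hQ (posDef_conj_dg hV' hy) hc]

/-- the hypograph cone -/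
def hypo (Q V : Matrix n n ℂ) (hQ : Q.IsHermitian) (hV' : V * Vᴴ = 1) :
    PointedCone ℝ ((n → ℝ) × ℝ) where
  carrier := {p | p = 0 ∨ ((∀ i, 0 < p.1 i) ∧ p.2 ≤ liebD Q V p.1)}
  add_mem' := by
    rintro a b (rfl | ⟨ha, ha'⟩) (rfl | ⟨hb, hb'⟩)
    · left; simp
    · right; simpa using ⟨hb, hb'⟩
    · right; simpa using ⟨ha, ha'⟩
    · right
      refine ⟨fun i => add_pos (ha i) (hb i), ?_⟩
      have := liebD_add hQ hV' ha hb
      simp only [Prod.snd_add, Prod.fst_add]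
      linarith
  zero_mem' := Or.inl rfl
  smul_mem' := by
    rintro c a (rfl | ⟨ha, ha'⟩)
    · left; simp
    · rcases eq_or_lt_of_le c.2 with hc | hc
      · left
        have : c = 0 := Subtype.ext hc.symm
        simp [this]
      · right
        have hc' : (0 : ℝ) < (c : ℝ) := hc
        have e : c • a = (c : ℝ) • a := rfl
        rw [e]
        refine ⟨fun i => ?_, ?_⟩
        · change (0 : ℝ) < (c : ℝ) * a.1 i
          exact mul_pos hc' (ha i)
        · rw [Prod.smul_fst, Prod.smul_snd, liebD_smul hQ hV' ha hc', smul_eq_mul]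
          exact mul_le_mul_of_nonneg_left ha' hc'.le

theorem mem_hypo {Q V : Matrix n n ℂ} {hQ : Q.IsHermitian} {hV' : V * Vᴴ = 1}
    {p : (n → ℝ) × ℝ} : p ∈ hypo Q V hQ hV' ↔
      (p = 0 ∨ ((∀ i, 0 < p.1 i) ∧ p.2 ≤ liebD Q V p.1)) := Iff.rfl

/-- **Supporting functional**: for every `y₀ > 0` there is `l : n → ℝ` with
`Tr exp(Q + log V diag(y) V*) ≤ Σ l_i y_i` for all `y > 0`, with equality at `y₀`. -/
theorem liebD_support {Q V : Matrix n n ℂ} (hQ : Q.IsHermitian) (hV' : V * Vᴴ = 1)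
    {y₀ : n → ℝ} (hy₀ : ∀ i, 0 < y₀ i) :
    ∃ l : n → ℝ, (∀ y : n → ℝ, (∀ i, 0 < y i) → liebD Q V y ≤ ∑ i, l i * y i) ∧
      liebD Q V y₀ = ∑ i, l i * y₀ i := by
  classical
  rcases isEmpty_or_nonempty n with hn | hn
  · refine ⟨fun _ => 0, fun y _ => ?_, ?_⟩
    · simp [liebD, lieb, rtr, Matrix.trace]
    · simp [liebD, lieb, rtr, Matrix.trace]
  have hne : ((y₀, (0 : ℝ)) : (n → ℝ) × ℝ) ≠ 0 := by
    intro h
    have h1 := congrArg Prod.fst h
    obtain ⟨i⟩ := hn
    have h2 := congrFun h1 i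
    have h3 := hy₀ i
    simp only [Prod.fst_zero, Pi.zero_apply] at h2
    linarith
  -- the linear functional on the span of `(y₀,0)` and `(0,1)`
  let φ : (ℝ × ℝ) →ₗ[ℝ] ((n → ℝ) × ℝ) :=
    { toFun := fun p => (p.1 • y₀, p.2)
      map_add' := fun p q => by simp [add_smul]
      map_smul' := fun c p => by simp [mul_smul] }
  have hφ : Function.Injective φ := by
    intro p q h
    have h' : (p.1 • y₀, p.2) = (q.1 • y₀, q.2) := h
    obtain ⟨h1, h2⟩ := Prod.mk.inj h'
    obtain ⟨i⟩ := hn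
    have h3 := congrFun h1 i
    simp only [Pi.smul_apply, smul_eq_mul] at h3
    exact Prod.ext (mul_right_cancel₀ (hy₀ i).ne' h3) h2
  let e : (ℝ × ℝ) ≃ₗ[ℝ] LinearMap.range φ := LinearEquiv.ofInjective φ hφ
  let ψ : (ℝ × ℝ) →ₗ[ℝ] ℝ :=
    { toFun := fun p => p.1 * liebD Q V y₀ - p.2
      map_add' := fun p q => by simp; ring
      map_smul' := fun c p => by simp; ring }
  let f : ((n → ℝ) × ℝ) →ₗ.[ℝ] ℝ := ⟨LinearMap.range φ, ψ.comp e.symm.toLinearMap⟩
  have hf : ∀ p : ℝ × ℝ, ∀ h : φ p ∈ f.domain, f ⟨φ p, h⟩ = p.1 * liebD Q V y₀ - p.2 := by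
    intro p h
    have h1 : e.symm ⟨φ p, h⟩ = p := by
      rw [LinearEquiv.symm_apply_eq]
      rfl
    change ψ (e.symm ⟨φ p, h⟩) = _
    rw [h1]
    rfl
  obtain ⟨g, hg1, hg2⟩ := riesz_extension (hypo Q V hQ hV') f
    (by
      rintro ⟨x, hx⟩ hxs
      obtain ⟨p, rfl⟩ := hx
      refine le_of_le_of_eq ?_ (hf p ⟨p, rfl⟩).symm
      rcases mem_hypo.1 hxs with h | ⟨h1, h2⟩
      · have h' : φ p = 0 := h
        have : p = 0 := hφ (by rw [h', map_zero])
        simp [this]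
      · have h1' : ∀ i, 0 < p.1 * y₀ i := fun i => h1 i
        have h2' : p.2 ≤ liebD Q V (p.1 • y₀) := h2
        have hp : 0 < p.1 := by
          obtain ⟨i⟩ := hn
          exact (pos_iff_pos_of_mul_pos (h1' i)).2 (hy₀ i)
        rw [liebD_smul hQ hV' hy₀ hp] at h2'
        linarith)
    (by
      rintro ⟨y, c⟩
      -- choose `a` large
      obtain ⟨a, ha⟩ : ∃ a : ℝ, ∀ i, 0 < a * y₀ i + y i := by
        refine ⟨∑ i, |y i| / y₀ i + 1, fun i => ?_⟩
        have h1 : |y i| / y₀ i ≤ ∑ i, |y i| / y₀ i :=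
          Finset.single_le_sum (f := fun i => |y i| / y₀ i)
            (fun j _ => div_nonneg (abs_nonneg _) (hy₀ j).le) (Finset.mem_univ i)
        have h2 : |y i| / y₀ i * y₀ i = |y i| := div_mul_cancel₀ _ (hy₀ i).ne'
        have h3 := mul_le_mul_of_nonneg_right h1 (hy₀ i).le
        have h4 := neg_abs_le (y i)
        have h5 := hy₀ i
        nlinarith
      refine ⟨⟨φ (a, liebD Q V (a • y₀ + y) - c), LinearMap.mem_range_self _ _⟩, ?_⟩
      refine mem_hypo.2 (Or.inr ⟨fun i => ?_, ?_⟩)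
      · exact ha i
      · change liebD Q V (a • y₀ + y) - c + c ≤ liebD Q V (a • y₀ + y)
        linarith)
  have hg0 : ∀ c : ℝ, g (0, c) = -c := by
    intro c
    have h := hg1 ⟨φ (0, c), LinearMap.mem_range_self _ _⟩
    rw [hf] at h
    have e0 : φ (0, c) = (0, c) := by
      change ((0 : ℝ) • y₀, c) = _
      rw [zero_smul]
    simpa [e0] using h
  have hgy : g (y₀, 0) = liebD Q V y₀ := by
    have h := hg1 ⟨φ (1, 0), LinearMap.mem_range_self _ _⟩
    rw [hf] at h
    have e0 : φ (1, 0) = (y₀, 0) := by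
      change ((1 : ℝ) • y₀, (0 : ℝ)) = _
      rw [one_smul]
    simpa [e0] using h
  have hlin : ∀ y : n → ℝ, g (y, 0) = ∑ i, g (Pi.single i 1, 0) * y i := by
    intro y
    have h1 : ((y, 0) : (n → ℝ) × ℝ) = ∑ i, y i • ((Pi.single i 1, 0) : (n → ℝ) × ℝ) := by
      refine Prod.ext ?_ ?_
      · rw [Prod.fst_sum]
        funext j
        simp [Finset.sum_apply, Pi.single_apply]
      · rw [Prod.snd_sum]
        simp
    conv_lhs => rw [h1]
    rw [map_sum]
    refine Finset.sum_congr rfl fun i _ => ?_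
    rw [map_smul, smul_eq_mul, mul_comm]
  refine ⟨fun i => g (Pi.single i 1, 0), fun y hy => ?_, ?_⟩
  · have h := hg2 (y, liebD Q V y) (mem_hypo.2 (Or.inr ⟨hy, le_refl _⟩))
    have h2 : ((y, liebD Q V y) : (n → ℝ) × ℝ) = (y, 0) + (0, liebD Q V y) := by simp
    rw [h2, map_add, hg0] at h
    rw [← hlin]
    linarith
  · rw [← hlin, hgy]

/-- **Integral form of Lieb's theorem for a commuting family.** `N` hermitian, `f r : ℝ → ℝ`
positive functions on the spectrum of `N`, `g = ∫ f r dm(r)` on the spectrum: then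
`∫ Tr exp(Q + log (f r)(N)) dm(r) ≤ Tr exp(Q + log g(N))`. -/
theorem lieb_integral {R : Type*} [MeasurableSpace R] (m : Measure R) {Q N : Matrix n n ℂ}
    (hQ : Q.IsHermitian) (hN : N.IsHermitian) (f : R → ℝ → ℝ) (g : ℝ → ℝ)
    (hf : ∀ r, ∀ x ∈ spectrum ℝ N, 0 < f r x)
    (hfi : ∀ x ∈ spectrum ℝ N, Integrable (fun r => f r x) m)
    (hg : ∀ x ∈ spectrum ℝ N, g x = ∫ r, f r x ∂m) (hg0 : ∀ x ∈ spectrum ℝ N, 0 < g x) :
    ∫ r, rtr (cfc Real.exp (Q + cfc (fun x => Real.log (f r x)) N)) ∂m ≤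
      rtr (cfc Real.exp (Q + cfc (fun x => Real.log (g x)) N)) := by
  obtain ⟨V, ν, hV, hV', hNe⟩ := exists_spectral hN
  have hν : ∀ i, ν i ∈ spectrum ℝ N := by
    intro i
    rw [hNe]
    have hu : IsUnit V := ⟨⟨V, Vᴴ, hV', hV⟩, rfl⟩
    have h1 : (diagonal (fun i => (ν i : ℂ)) : Matrix n n ℂ) = Vᴴ * N * V := by
      rw [hNe]
      have : Vᴴ * (V * diagonal (fun i => (ν i : ℂ)) * Vᴴ) * V =
          (Vᴴ * V) * diagonal (fun i => (ν i : ℂ)) * (Vᴴ * V) := by simp only [Matrix.mul_assoc]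
      rw [this, hV, Matrix.one_mul, Matrix.mul_one]
    rw [spectrum.mem_iff]
    intro hun
    have h2 : algebraMap ℝ (Matrix n n ℂ) (ν i) - V * diagonal (fun i => (ν i : ℂ)) * Vᴴ =
        V * (algebraMap ℝ (Matrix n n ℂ) (ν i) - diagonal (fun i => (ν i : ℂ))) * Vᴴ := by
      rw [Matrix.mul_sub, Matrix.sub_mul]
      congr 1
      rw [Algebra.algebraMap_eq_smul_one, Matrix.mul_smul, Matrix.mul_one, Matrix.smul_mul, hV']
    rw [h2] at hun
    have h3 : IsUnit (algebraMap ℝ (Matrix n n ℂ) (ν i) -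
        diagonal (fun i => (ν i : ℂ)) : Matrix n n ℂ) := by
      have hu' : IsUnit Vᴴ := ⟨⟨Vᴴ, V, hV, hV'⟩, rfl⟩
      have h4 := (hu'.mul hun).mul hu
      have h5 : Vᴴ * (V * (algebraMap ℝ (Matrix n n ℂ) (ν i) -
          diagonal (fun i => (ν i : ℂ))) * Vᴴ) * V =
          (Vᴴ * V) * (algebraMap ℝ (Matrix n n ℂ) (ν i) -
            diagonal (fun i => (ν i : ℂ))) * (Vᴴ * V) := by simp only [Matrix.mul_assoc]
      rw [h5, hV, Matrix.one_mul, Matrix.mul_one] at h4
      exact h4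
    have h6 : (algebraMap ℝ (Matrix n n ℂ) (ν i) -
        diagonal (fun i => (ν i : ℂ)) : Matrix n n ℂ) =
        diagonal (fun j => ((ν i : ℂ) - (ν j : ℂ))) := by
      ext a b
      rw [Matrix.sub_apply, Matrix.algebraMap_matrix_apply, diagonal_apply, diagonal_apply]
      split_ifs with h
      · simp
      · simp
    rw [h6, Matrix.isUnit_iff_isUnit_det, det_diagonal] at h3
    have : ∏ j, ((ν i : ℂ) - (ν j : ℂ)) = 0 :=
      Finset.prod_eq_zero (Finset.mem_univ i) (by simp)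
    rw [this] at h3
    exact not_isUnit_zero h3
  have hval : ∀ h : ℝ → ℝ, (∀ x ∈ spectrum ℝ N, 0 < h x) →
      rtr (cfc Real.exp (Q + cfc (fun x => Real.log (h x)) N)) =
        liebD Q V (fun i => h (ν i)) := by
    intro h hh
    rw [liebD, lieb, dg, cfc_conj_diagonal _ V hV, hNe, cfc_conj_diagonal _ V hV]
  obtain ⟨l, hl1, hl2⟩ := liebD_support hQ hV' (y₀ := fun i => g (ν i))
    (fun i => hg0 _ (hν i))
  rw [hval g hg0, hl2]
  have hi : Integrable (fun r => ∑ i, l i * f r (ν i)) m :=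
    integrable_finsetSum _ fun i _ => (hfi _ (hν i)).const_mul _
  calc ∫ r, rtr (cfc Real.exp (Q + cfc (fun x => Real.log (f r x)) N)) ∂m
      ≤ ∫ r, ∑ i, l i * f r (ν i) ∂m := by
        refine integral_mono_of_nonneg (Eventually.of_forall fun r => ?_) hi
          (Eventually.of_forall fun r => ?_)
        · exact rtr_nonneg_of_posDef (exp_posDef (hQ.add (isHermitian_cfc _ _))).1
        · change rtr (cfc Real.exp (Q + cfc (fun x => Real.log (f r x)) N)) ≤ _
          rw [hval (f r) (hf r)]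
          exact hl1 _ fun i => hf r _ (hν i)
    _ = ∑ i, l i * g (ν i) := by
        rw [integral_finsetSum]
        · refine Finset.sum_congr rfl fun i _ => ?_
          rw [integral_const_mul, ← hg _ (hν i)]
        · exact fun i _ => (hfi _ (hν i)).const_mul _

end

end Pool.Agent.Lib_helper59.Lieb
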